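import Mathlib

namespace Pool.Agent.H.MP_de9148_co

open Set Filter Topology

/-- Relative sign. -/
def sg (b c : Bool) : ℝ := if b = c then 1 else -1

/-- A line passes through an open quadrant. -/
def Hs (s p q w s' p' q' w' : ℝ) : Prop := ∃ t, p < s * (q + t * w) ∧ s' * (q' + t * w') < p'

theorem Hs.ev {s s' : ℝ} {p q w p' q' w' : ℝ → ℝ} (hp : Continuous p) (hq : Continuous q)
    (hw : Continuous w) (hp' : Continuous p') (hq' : Continuous q') (hw' : Continuous w')
    (h : Hs s (p 0) (q 0) (w 0) s' (p' 0) (q' 0) (w' 0)) :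
    ∀ᶠ δ in 𝓝[>] (0 : ℝ), Hs s (p δ) (q δ) (w δ) s' (p' δ) (q' δ) (w' δ) := by
  obtain ⟨t, h1, h2⟩ := h
  have a := (hp.tendsto 0).eventually_lt
    ((by fun_prop : Continuous fun δ => s * (q δ + t * w δ)).tendsto 0) h1
  have b := ((by fun_prop : Continuous fun δ => s' * (q' δ + t * w' δ)).tendsto 0).eventually_lt
    (hp'.tendsto 0) h2
  exact ((a.and b).mono fun δ h => ⟨t, h⟩).filter_mono nhdsWithin_le_nhds

theorem Hs.auto {b c b' c' : Bool} (h : ¬(b = c ↔ b' = c')) (p q p' q' : ℝ) {w w' : ℝ}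
    (hw : 0 < w) (hw' : 0 < w') : Hs (sg b c) p q w (sg b' c') p' q' w' := by
  obtain ⟨t, h1, h2⟩ : ∃ t, (p - sg b c * q) / w < t ∧ (sg b' c' * q' - p') / w' < t :=
    ⟨_, lt_add_one _ |>.trans_le (le_max_left _ _), lt_add_one _ |>.trans_le (le_max_right _ _)⟩
  rw [div_lt_iff₀ hw] at h1
  rw [div_lt_iff₀ hw'] at h2
  refine ⟨sg b c * t, ?_⟩
  unfold sg at *
  by_cases e : b = c <;> by_cases e' : b' = c' <;> simp_all <;> (try constructor) <;> linarith

/-- The line of `l` passes through the quadrant of `k` in the coordinates `a`, `b`. -/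
def Hv {m : ℕ} (y v : (Fin m → Bool) → Fin m → ℝ) (k l : Fin m → Bool) (a b : Fin m) : Prop :=
  Hs (sg (k a) (l a)) (y k a) (y l a) (v l a) (sg (k b) (l b)) (y k b) (y l b) (v l b)

theorem core (n : ℕ) : ∃ y v : (Fin (n + 1) → Bool) → Fin (n + 1) → ℝ, (∀ k i, 0 < v k i) ∧
    ∀ k l, k (Fin.last n) = true → l (Fin.last n) = true → k ≠ l →
      y k (Fin.last n) ≠ y l (Fin.last n) ∧ Hv y v k l 0 (Fin.last n) ∧
        ∀ i : Fin n, Hv y v k l i.succ i.castSucc := by
  induction n with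
  | zero =>
    refine ⟨0, 1, fun _ _ => one_pos, fun k l hk hl h => (h (funext fun i => ?_)).elim⟩
    rw [Fin.fin_one_eq_zero i]; exact hk.trans hl.symm
  | succ n ih =>
    obtain ⟨y, v, hv, hy⟩ := ih
    let L := Fin.last n
    let Y : ℝ → (Fin (n + 1) → Bool) → Bool → Fin (n + 1) → ℝ := fun δ k σ i =>
      y k i + sg σ true * δ * v k i
    let V : ℝ → (Fin (n + 1) → Bool) → Bool → Fin (n + 1) → ℝ := fun δ k σ i =>
      v k i * (1 - sg σ true * i * δ)
    have e1 : ∀ᶠ δ in 𝓝[>] (0 : ℝ), ∀ σ (i : Fin (n + 1)), 0 < 1 - sg σ true * i * δ ∧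
        0 < 1 - sg σ true * (i + 1 / 2) * δ := by
      simp only [eventually_all]
      intro σ i
      refine ((tendsto_const_nhds.eventually_lt ((by fun_prop :
        Continuous fun δ : ℝ => 1 - sg σ true * i * δ).tendsto 0) (by simp)).and
        (tendsto_const_nhds.eventually_lt ((by fun_prop :
        Continuous fun δ : ℝ => 1 - sg σ true * (i + 1 / 2) * δ).tendsto 0)
          (by simp))).filter_mono nhdsWithin_le_nhds
    have e2 : ∀ᶠ δ in 𝓝[>] (0 : ℝ), ∀ k σ, 0 < 1 - 2 * δ * Y δ k σ L := by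
      simp only [eventually_all]
      intro k σ
      exact (tendsto_const_nhds.eventually_lt ((by fun_prop :
        Continuous fun δ : ℝ => 1 - 2 * δ * Y δ k σ L).tendsto 0) (by simp)).filter_mono
          nhdsWithin_le_nhds
    have e3 : ∀ᶠ δ in 𝓝[>] (0 : ℝ), ∀ k l σ τ, k L = true → l L = true → k ≠ l →
        Y δ k σ L ≠ Y δ l τ L ∧ Hs (sg (k 0) (l 0)) (Y δ k σ 0) (Y δ l τ 0) (V δ l τ 0) 1
          (Y δ k σ L - δ * Y δ k σ L ^ 2) (Y δ l τ L - δ * Y δ l τ L ^ 2)
          (V δ l τ L * (1 - 2 * δ * Y δ l τ L)) ∧ ∀ i : Fin n,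
        Hs (sg (k i.succ) (l i.succ)) (Y δ k σ i.succ) (Y δ l τ i.succ) (V δ l τ i.succ)
          (sg (k i.castSucc) (l i.castSucc)) (Y δ k σ i.castSucc) (Y δ l τ i.castSucc)
          (V δ l τ i.castSucc) := by
      simp only [eventually_all]
      intro k l σ τ hk hl h
      obtain ⟨h1, h2, h3⟩ := hy k l hk hl h
      refine Eventually.and ?_ (Eventually.and ?_ (eventually_all.2 fun i => ?_))
      · refine Eventually.filter_mono nhdsWithin_le_nhds ?_
        exact ((by fun_prop : Continuous fun δ => Y δ k σ L - Y δ l τ L).continuousAt.eventually_ne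
          (by simpa [Y, sub_eq_zero] using h1)).mono fun δ h => sub_ne_zero.1 h
      · apply Hs.ev <;> try fun_prop
        simpa [Y, V, Hv, hk, hl, sg, L] using h2
      · apply Hs.ev <;> try fun_prop
        simpa [Y, V, Hv] using h3 i
    obtain ⟨δ, ⟨⟨d0, e1⟩, e2⟩, e3⟩ := (((Eventually.and (self_mem_nhdsWithin :
      ∀ᶠ δ in 𝓝[>] (0 : ℝ), 0 < δ) e1).and e2).and e3).exists
    have hV : ∀ k σ i, 0 < V δ k σ i := fun k σ i => mul_pos (hv k i) (e1 σ i).1
    let φ : (Fin (n + 1) → Bool) → Bool → ℝ := fun k σ => Y δ k σ L - δ * Y δ k σ L ^ 2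
    let ψ : (Fin (n + 1) → Bool) → Bool → ℝ := fun k σ => V δ k σ L * (1 - 2 * δ * Y δ k σ L)
    have hψ : ∀ k σ, 0 < ψ k σ := fun k σ => mul_pos (hV k σ L) (e2 k σ)
    obtain ⟨M, hM⟩ := Finite.bddAbove_range fun x : ((Fin (n + 1) → Bool) × Bool) ×
        (Fin (n + 1) → Bool) × Bool => (Y δ x.1.1 x.1.2 0 + Y δ x.2.1 x.2.2 0 + 1) / V δ x.2.1 x.2.2 0
          * ψ x.2.1 x.2.2 - φ x.1.1 x.1.2 - φ x.2.1 x.2.2
    refine ⟨fun k => Fin.cons (φ (Fin.tail k) (k 0) + (M + 1) / 2) (Y δ (Fin.tail k) (k 0)),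
      fun k => Fin.cons (ψ (Fin.tail k) (k 0)) (V δ (Fin.tail k) (k 0)),
      fun k i => Fin.cases (hψ _ _) (fun i => hV _ _ i) i, fun k l hk hl h => ?_⟩
    obtain ⟨σ, k, rfl⟩ : ∃ σ k', k = Fin.cons σ k' := ⟨_, _, (Fin.cons_self_tail k).symm⟩
    obtain ⟨τ, l, rfl⟩ : ∃ σ k', l = Fin.cons σ k' := ⟨_, _, (Fin.cons_self_tail l).symm⟩
    simp only [Hv, ← Fin.succ_last, Fin.cons_succ, Fin.cons_zero, Fin.tail_cons] at hk hl ⊢
    have s2 : sg σ true * sg σ true = 1 := by cases σ <;> simp [sg]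
    have kl : σ = τ → k ≠ l := fun e e' => h (by rw [e, e'])
    have ne : Y δ k σ L ≠ Y δ l τ L := by
      by_cases e : k = l
      · have := mul_pos d0 (hv l L)
        have st : σ ≠ τ := fun e' => kl e' e
        subst e
        cases σ <;> cases τ <;> simp [Y, sg] at st ⊢ <;> linarith
      · exact (e3 k l σ τ hk hl e).1
    refine ⟨ne, ?_, fun i => Fin.cases ?_ (fun i => ?_) i⟩
    · by_cases e : σ = τ
      · have q := mul_pos d0 (sq_pos_of_ne_zero (sub_ne_zero.2 ne))
        have w := hV l τ L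
        have w' := e2 l τ
        refine ⟨(Y δ k σ L - Y δ l τ L - δ * (Y δ k σ L - Y δ l τ L) ^ 2 / 2 /
          (1 - 2 * δ * Y δ l τ L)) / V δ l τ L, ?_, ?_⟩
        · rw [sg, if_pos e, one_mul]
          simp only [φ, ψ]
          rw [← mul_assoc (_ / _), div_mul_cancel₀ _ w.ne', sub_mul, div_mul_cancel₀ _ w'.ne']
          linarith
        · rw [hk, hl, sg, if_pos rfl, one_mul, div_mul_cancel₀ _ w.ne']
          have := div_pos (half_pos q) w'
          linarith
      · exact Hs.auto (by simp [e, hk, hl]) _ _ _ _ (hψ _ _) (hV _ _ _)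
    · simp only [Fin.castSucc_zero, Fin.cons_zero]
      by_cases e : (k 0 = l 0 ↔ σ = τ)
      · by_cases e' : σ = τ
        · obtain ⟨t, a, b⟩ := (e3 k l σ τ hk hl (kl e')).2.1
          refine ⟨t, a, ?_⟩
          rw [sg, if_pos e']
          simp only [φ, ψ]
          linarith
        · have := hM ⟨((k, σ), l, τ), rfl⟩
          have w := hV l τ 0
          refine ⟨-((Y δ k σ 0 + Y δ l τ 0 + 1) / V δ l τ 0), ?_, ?_⟩
          · rw [sg, if_neg (e.not.2 e'), neg_mul (_ / _), div_mul_cancel₀ _ w.ne']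
            linarith
          · rw [sg, if_neg e']
            simp only at this
            linarith
      · exact Hs.auto e _ _ _ _ (hV _ _ _) (hψ _ _)
    · simp only [← Fin.succ_castSucc, Fin.cons_succ]
      by_cases e : k = l
      · have st : σ ≠ τ := fun e' => kl e' e
        subst e
        have s3 : sg τ true = -sg σ true := by cases σ <;> cases τ <;> simp [sg] at st ⊢
        have w := (e1 τ i.castSucc).2
        have a := hv k i.succ
        have b := hv k i.castSucc
        have q := div_pos (sq_pos_of_pos d0) w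
        have ht := div_mul_cancel₀ (2 * sg σ true * δ) w.ne'
        have hq : 2 * sg σ true * δ / (1 - sg τ true * (i.castSucc + 1 / 2) * δ) * sg σ true * δ =
            2 * (δ ^ 2 / (1 - sg τ true * (i.castSucc + 1 / 2) * δ)) := by
          simp only [div_eq_mul_inv]
          linear_combination 2 * δ ^ 2 * (1 - sg τ true * (i.castSucc + 1 * 2⁻¹) * δ)⁻¹ * s2
        refine ⟨2 * sg σ true * δ / (1 - sg τ true * (i.castSucc + 1 / 2) * δ), ?_⟩
        generalize 2 * sg σ true * δ / _ = t at *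
        generalize δ ^ 2 / _ = r at *
        rw [sg, if_pos rfl, sg, if_pos rfl]
        simp only [Y, V, Fin.val_succ, Fin.val_castSucc, s3, Nat.cast_add, Nat.cast_one] at *
        constructor
        · have := congrArg (· * v k i.succ) ht
          have := congrArg (· * v k i.succ) hq
          nlinarith [mul_pos a q]
        · have := congrArg (· * v k i.castSucc) ht
          have := congrArg (· * v k i.castSucc) hq
          nlinarith [mul_pos b q]
      · exact (e3 k l σ τ hk hl e).2.2 i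

end Pool.Agent.H.MP_de9148_co
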