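import Pool.Agent.H.MP_de9148_co.A

namespace Pool.Agent.H.MP_de9148_co

open Set Filter Topology

variable {n : ℕ}

/-- Head of the arc. -/
def hd : Option (Fin n × Bool) → Fin (n + 1)
  | none => Fin.last n
  | some x => x.1.castSucc

/-- Time of the arc. -/
noncomputable def tm : Option (Fin n × Bool) → ℝ
  | none => 0
  | some x => sg x.2 true

/-- The coordinates which are tilted. -/
noncomputable def ch : Option (Fin n × Bool) → Fin (n + 1) → ℝ
  | none, _ => 0
  | some x, i => if i.val ≤ x.1.val then 1 else 0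

/-- Speed factor. -/
noncomputable def ww (δ : ℝ) (m : Option (Fin n × Bool)) (i : Fin (n + 1)) : ℝ :=
  1 + tm m * (4 * n + 2) * δ * ch m i

/-- Offset. -/
noncomputable def cc (m : Option (Fin n × Bool)) (i : Fin (n + 1)) : ℝ :=
  i + (2 * n + 1) * ch m i

theorem ww_pos {δ : ℝ} (d0 : 0 < δ) (d1 : (4 * n + 2) * δ ≤ 1 / 2) (m : Option (Fin n × Bool))
    (i : Fin (n + 1)) : 0 < ww δ m i := by
  have : 0 < (4 * n + 2) * δ := by positivity
  rcases m with _ | ⟨j, _ | _⟩ <;> simp only [ww, tm, ch, sg] <;> (try split_ifs) <;>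
    (try contradiction) <;> linarith

theorem own {δ : ℝ} (d0 : 0 < δ) (d1 : (4 * n + 2) * δ ≤ 1 / 2) {m m' : Option (Fin n × Bool)}
    (h : m ≠ m') : ∃ t, tm m' * δ + δ ^ 2 ≤ δ ^ 2 * cc m (hd m' + 1) + t * ww δ m (hd m' + 1) ∧
      δ ^ 2 * cc m (hd m') + t * ww δ m (hd m') ≤ tm m' * δ := by
  have d2 := sq_pos_of_pos d0
  have n0 : (0 : ℝ) ≤ n := n.cast_nonneg
  have d3 := mul_le_mul_of_nonneg_left d1 (mul_nonneg n0 d2.le)
  have d4 : 0 ≤ n * δ ^ 2 * ((4 * n + 2) * δ) := by positivity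
  rcases m' with _ | ⟨j, ρ⟩
  · rcases m with _ | ⟨i, σ⟩
    · exact (h rfl).elim
    · refine ⟨-(n * δ ^ 2), ?_⟩
      have c1 : ch (some (i, σ)) (Fin.last n) = 0 := if_neg i.2.not_ge
      have c2 : ch (some (i, σ)) 0 = 1 := by simp [ch]
      simp only [hd, tm, cc, ww, Fin.last_add_one, c1, c2, Fin.val_zero, Fin.val_last]
      cases σ <;> simp only [sg, Bool.false_eq_true, if_false, if_true, Nat.cast_zero] <;>
        constructor <;> nlinarith
  · simp only [hd, Fin.coeSucc_eq_succ]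
    by_cases e : ch m j.succ = ch m j.castSucc
    · have w := ww_pos d0 d1 m j.castSucc
      refine ⟨(tm (some (j, ρ)) * δ - δ ^ 2 * cc m j.castSucc) / ww δ m j.castSucc, ?_⟩
      rw [show ww δ m j.succ = ww δ m j.castSucc by rw [ww, e, ww], div_mul_cancel₀ _ w.ne']
      simp only [cc, e, Fin.val_succ, Fin.val_castSucc, Nat.cast_add, Nat.cast_one]
      constructor <;> linarith
    · rcases m with _ | ⟨i, σ⟩
      · exact (e rfl).elim
      · obtain rfl : i = j := by
          simp only [ch, Fin.val_succ, Fin.val_castSucc] at e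
          split_ifs at e <;> first | contradiction | omega
        have j1 : (i : ℝ) ≤ n := by exact_mod_cast i.2.le
        have j0 : (0 : ℝ) ≤ i := by positivity
        have d5 := mul_le_mul_of_nonneg_left d1 (mul_nonneg j0 d2.le)
        have d6 : 0 ≤ i * δ ^ 2 * ((4 * n + 2) * δ) := by positivity
        have d7 := mul_le_mul_of_nonneg_right j1 d2.le
        refine ⟨sg ρ true * δ - i * δ ^ 2, ?_⟩
        simp only [tm, cc, ww, ch, Fin.val_succ, Fin.val_castSucc, le_refl, if_true,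
          if_neg (Nat.not_succ_le_self _)]
        cases σ <;> cases ρ <;> simp [sg] at h ⊢ <;> constructor <;> nlinarith

theorem sg_mul (b c : Bool) : sg b true * sg c true = sg b c := by
  cases b <;> cases c <;> simp [sg]

theorem quad (n : ℕ) : ∃ (α β : (Fin n → Bool) × Option (Fin n × Bool) → ℝ)
    (p u : (Fin n → Bool) × Option (Fin n × Bool) → Fin (n + 1) → ℝ),
    (∀ x, u x ≠ 0) ∧ (∀ x x', x ≠ x' → ∃ t : ℝ,
      α x' ≤ sg (Fin.snoc (α := fun _ => Bool) x'.1 true (hd x'.2 + 1)) true *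
        (p x + t • u x) (hd x'.2 + 1) ∧
      sg (Fin.snoc (α := fun _ => Bool) x'.1 true (hd x'.2)) true * (p x + t • u x) (hd x'.2)
        ≤ β x') ∧ ∀ p u : Fin (n + 1) → ℝ, ¬∀ x', ∃ t : ℝ,
      α x' ≤ sg (Fin.snoc (α := fun _ => Bool) x'.1 true (hd x'.2 + 1)) true *
        (p + t • u) (hd x'.2 + 1) ∧
      sg (Fin.snoc (α := fun _ => Bool) x'.1 true (hd x'.2)) true * (p + t • u) (hd x'.2)
        ≤ β x' := by
  obtain ⟨y, v, hv, hy⟩ := core n
  let S : (Fin n → Bool) → Fin (n + 1) → Bool := fun k => Fin.snoc (α := fun _ => Bool) k true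
  have e1 : ∀ᶠ δ : ℝ in 𝓝[>] 0, (4 * n + 2) * δ < 1 / 2 :=
    (((by fun_prop : Continuous fun δ : ℝ => (4 * n + 2) * δ).tendsto 0).eventually_lt
      tendsto_const_nhds (by simp)).filter_mono nhdsWithin_le_nhds
  have e2 : ∀ᶠ δ in 𝓝[>] (0 : ℝ), ∀ k l m m', k ≠ l →
      Hs (sg (S k (hd m' + 1)) (S l (hd m' + 1)))
        (y (S k) (hd m' + 1) + (tm m' * δ + δ ^ 2) * v (S k) (hd m' + 1))
        (y (S l) (hd m' + 1) + δ ^ 2 * cc m (hd m' + 1) * v (S l) (hd m' + 1))
        (ww δ m (hd m' + 1) * v (S l) (hd m' + 1)) (sg (S k (hd m')) (S l (hd m')))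
        (y (S k) (hd m') + tm m' * δ * v (S k) (hd m'))
        (y (S l) (hd m') + δ ^ 2 * cc m (hd m') * v (S l) (hd m'))
        (ww δ m (hd m') * v (S l) (hd m')) := by
    simp only [eventually_all]
    intro k l m m' h
    obtain ⟨-, h2, h3⟩ := hy (S k) (S l) (by simp [S]) (by simp [S])
      fun e => h (by simpa [S] using congrArg Fin.init e)
    apply Hs.ev <;> try (unfold ww; fun_prop)
    any_goals fun_prop
    rcases m' with _ | ⟨j, ρ⟩
    · simpa [hd, ww, Hv] using h2
    · simpa [hd, ww, Hv] using h3 j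
  obtain ⟨δ, ⟨d0, d1⟩, e2⟩ := ((Eventually.and (self_mem_nhdsWithin :
      ∀ᶠ δ in 𝓝[>] (0 : ℝ), 0 < δ) e1).and e2).exists
  refine ⟨fun x => y (S x.1) (hd x.2 + 1) + (tm x.2 * δ + δ ^ 2) * v (S x.1) (hd x.2 + 1),
    fun x => y (S x.1) (hd x.2) + tm x.2 * δ * v (S x.1) (hd x.2),
    fun x i => sg (S x.1 i) true * (y (S x.1) i + δ ^ 2 * cc x.2 i * v (S x.1) i),
    fun x i => sg (S x.1 i) true * (ww δ x.2 i * v (S x.1) i), fun x e => ?_, ?_, ?_⟩
  · have := congrFun e (Fin.last n)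
    simp only [S, Fin.snoc_last, sg, if_true, one_mul, Pi.zero_apply] at this
    exact (mul_pos (ww_pos d0 d1.le _ _) (hv _ _)).ne' this
  · rintro ⟨l, m⟩ ⟨k, m'⟩ h
    have r : ∀ (t : ℝ) (b c : Bool) (a w : ℝ),
        sg b true * (sg c true * a + t * (sg c true * w)) = sg b c * (a + t * w) := by
      intro t b c a w; rw [← sg_mul b c]; ring
    simp only [Pi.add_apply, Pi.smul_apply, smul_eq_mul, r]
    by_cases e : k = l
    · subst e
      obtain ⟨t, h1, h2⟩ := own d0 d1.le (show m ≠ m' from fun e => h (by rw [e]))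
      refine ⟨t, ?_, ?_⟩ <;> rw [sg, if_pos rfl]
      · linarith [mul_le_mul_of_nonneg_right h1 (hv (S k) (hd m' + 1)).le]
      · linarith [mul_le_mul_of_nonneg_right h2 (hv (S k) (hd m')).le]
    · obtain ⟨t, h1, h2⟩ := e2 k l m m' e
      exact ⟨t, h1.le, h2.le⟩
  · intro p u h
    wlog u0 : 0 ≤ u (Fin.last n) generalizing u
    · refine this (-u) (fun x => ?_) (by simp only [Pi.neg_apply]; linarith)
      obtain ⟨t, h⟩ := h x
      exact ⟨-t, by simpa using h⟩
    let k : Fin n → Bool := fun i => decide (0 ≤ u i.castSucc)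
    have mo : ∀ i, 0 ≤ sg (S k i) true * u i := fun i => by
      refine Fin.lastCases (by simpa [S, sg]) (fun i => ?_) i
      by_cases e : 0 ≤ u i.castSucc <;> simp [S, sg, k, e]
      linarith
    have a : ∀ j : Fin (n + 1), ∃ t : ℝ,
        y (S k) (j + 1) < sg (S k (j + 1)) true * (p (j + 1) + t * u (j + 1)) ∧
          sg (S k j) true * (p j + t * u j) ≤ y (S k) j := fun j => by
      have q := mul_pos (sq_pos_of_pos d0) (hv (S k) (j + 1))
      induction j using Fin.lastCases with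
      | last =>
        obtain ⟨t, h1, h2⟩ := h (k, none)
        simp only [hd, tm, Pi.add_apply, Pi.smul_apply, smul_eq_mul] at h1 h2
        exact ⟨t, by linarith, by linarith⟩
      | cast j =>
        obtain ⟨t, h1, h2⟩ := h (k, some (j, true))
        obtain ⟨s, h3, h4⟩ := h (k, some (j, false))
        simp only [hd, tm, Pi.add_apply, Pi.smul_apply, smul_eq_mul, show sg true true = 1 from
          if_pos rfl, show sg false true = -1 from if_neg (by simp)] at h1 h2 h3 h4
        exact ⟨(t + s) / 2, by linarith, by linarith⟩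
    choose t h1 h2 using a
    obtain ⟨j, hj⟩ := Finite.exists_min t
    nlinarith [h1 j, h2 (j + 1), mul_le_mul_of_nonneg_right (hj (j + 1)) (mo (j + 1))]

end Pool.Agent.H.MP_de9148_co
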